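import Pool.Agent.LE.StmtsA
import Pool.Agent.Helper42_Mob.Ass3

/-!
# The zero-one law at every energy: assembly for `LocSet`
-/

set_option autoImplicit false
set_option linter.unusedSectionVars false

open MeasureTheory ProbabilityTheory Function

open scoped ENNReal BigOperators ComplexInnerProductSpace

noncomputable section

namespace Pool.Agent.LE.H93

open Pool.Agent.Anderson Pool.Agent.Loc Pool.Agent.Helper54.Bal Pool.Agent.Mob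
  Pool.Agent.Mob.H42

variable {d : ℕ}

/-- the probability of decay at the rate `κ` in the cube of radius `L` -/
def pr (d : ℕ) (σ E κ : ℝ) (L : ℕ) : ℝ≥0∞ := PP d (gl σ) {V | SG V L κ E 0}

/-- the set of energies at which the probability of decay does not tend to `0`, for some rate -/
def LocP (d : ℕ) (σ : ℝ) : Set ℝ :=
  {E | ∃ κ : ℝ, 0 < κ ∧ 0 < Filter.liminf (pr d σ E κ) Filter.atTop}

theorem liminf_zero (hZer : ZerStmt) {C₀ σ E κ : ℝ} (hd : 1 ≤ d) (hC₀ : 0 < C₀) (hσ : σ ≠ 0)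
    (hE : E ∉ LocSet d C₀ σ) (hκ : 0 < κ) :
    Filter.liminf (pr d σ E κ) Filter.atTop = 0 := by
  rw [← nonpos_iff_eq_zero]
  refine le_of_forall_gt_imp_ge_of_dense fun δ hδ => ?_
  rcases eq_or_ne δ ⊤ with rfl | hδt
  · exact le_top
  have h1 : 0 < δ.toReal := ENNReal.toReal_pos hδ.ne' hδt
  refine Filter.liminf_le_of_frequently_le' ?_
  rw [Filter.frequently_atTop]
  intro L₁
  obtain ⟨L, hL, h⟩ := hZer d C₀ σ E κ δ.toReal hd hC₀ hσ hE hκ h1 L₁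
  rw [ENNReal.ofReal_toReal hδt] at h
  exact ⟨L, hL, h.le⟩

theorem meas_SG (L : ℕ) (κ E : ℝ) (v : Site d) :
    MeasurableSet {V : Site d → ℝ | SG V L κ E v} := by
  have h1 : {V : Site d → ℝ | SG V L κ E v} = {V : Site d → ℝ | (RM V (box v L) E).det ≠ 0} ∩
      ⋂ u : {u : Site d // sd v u = L}, {V : Site d → ℝ | |gr V (box v L) E v u| ≤
        Real.exp (-κ * L)} := by
    ext V
    simp only [SG, Set.mem_inter_iff, Set.mem_iInter, Subtype.forall]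
    rfl
  rw [h1]
  refine MeasurableSet.inter ?_ (MeasurableSet.iInter fun u => ?_)
  · exact (continuous_det (box v L) E).measurable (measurableSet_singleton 0).compl
  · exact measurableSet_le (measurable_gr _ _ _ _).abs measurable_const

theorem pr_lower (hCnv : CnvStmt) {C₀ σ E : ℝ} (hd : 1 ≤ d) (hC₀ : 0 < C₀) (hσ : σ ≠ 0)
    (hB : BlkAt d C₀ σ) (hE : E ∈ LocSet d C₀ σ) :
    ∃ (κ c : ℝ) (L₀ : ℕ), 0 < κ ∧ 0 < c ∧ ∀ L : ℕ, L₀ ≤ L →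
      1 - pr d σ E κ L ≤ ENNReal.ofReal (Real.exp (-c * L)) := by
  obtain ⟨κ, c, L₀, h1, h2, h⟩ := hCnv d C₀ σ E hd hC₀ hσ hB hE
  refine ⟨κ, c, L₀, h1, h2, fun L hL => ?_⟩
  refine le_trans (le_of_eq ?_) (h L hL)
  have h3 : {V : Site d → ℝ | ¬ SG V L κ E 0} = {V : Site d → ℝ | SG V L κ E 0}ᶜ := rfl
  rw [h3, prob_compl_eq_one_sub (meas_SG L κ E 0)]
  rfl

theorem pos_of_lower {σ E κ c : ℝ} {L₀ : ℕ} (hc : 0 < c) (h : ∀ L : ℕ, L₀ ≤ L →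
    1 - pr d σ E κ L ≤ ENNReal.ofReal (Real.exp (-c * L))) :
    0 < Filter.liminf (pr d σ E κ) Filter.atTop := by
  have h1 : Filter.Tendsto (fun L : ℕ => Real.exp (-c * L)) Filter.atTop (nhds 0) := by
    have h2 : Filter.Tendsto (fun L : ℕ => -c * (L : ℝ)) Filter.atTop Filter.atBot :=
      tendsto_natCast_atTop_atTop.const_mul_atTop_of_neg (by linarith)
    exact Real.tendsto_exp_atBot.comp h2
  have h3 : ∀ᶠ L : ℕ in Filter.atTop, (1 / 2 : ℝ≥0∞) ≤ pr d σ E κ L := by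
    filter_upwards [h1.eventually_lt_const (show (0 : ℝ) < 1 / 2 by norm_num),
      Filter.eventually_ge_atTop L₀] with L hL hL0
    have h4 := h L hL0
    have h5 : ENNReal.ofReal (Real.exp (-c * L)) ≤ 1 / 2 := by
      calc ENNReal.ofReal (Real.exp (-c * L)) ≤ ENNReal.ofReal (1 / 2) :=
            ENNReal.ofReal_le_ofReal hL.le
        _ = 1 / 2 := by
            rw [ENNReal.ofReal_div_of_pos (by norm_num)]
            simp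
    have h6 : (1 : ℝ≥0∞) ≤ 1 / 2 + pr d σ E κ L := by
      have h7 : (1 : ℝ≥0∞) ≤ ENNReal.ofReal (Real.exp (-c * L)) + pr d σ E κ L :=
        tsub_le_iff_right.1 h4
      exact h7.trans (add_le_add h5 le_rfl)
    by_contra hcon
    rw [not_le] at hcon
    have h8 : (1 / 2 : ℝ≥0∞) + pr d σ E κ L < 1 / 2 + 1 / 2 :=
      ENNReal.add_lt_add_left (by simp) hcon
    rw [ENNReal.add_halves] at h8
    exact absurd h6 (not_le.2 h8)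
  have h9 : (1 / 2 : ℝ≥0∞) ≤ Filter.liminf (pr d σ E κ) Filter.atTop :=
    Filter.le_liminf_of_le (by isBoundedDefault) h3
  exact lt_of_lt_of_le (by simp) h9

theorem locP_eq (hZer : ZerStmt) (hCnv : CnvStmt) {C₀ σ : ℝ} (hd : 1 ≤ d) (hC₀ : 0 < C₀)
    (hσ : σ ≠ 0) (hB : BlkAt d C₀ σ) : LocP d σ = LocSet d C₀ σ := by
  ext E
  constructor
  · rintro ⟨κ, hκ, h⟩
    by_contra hE
    rw [liminf_zero hZer hd hC₀ hσ hE hκ] at h
    exact lt_irrefl _ h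
  · intro hE
    obtain ⟨κ, c, L₀, h1, h2, h⟩ := pr_lower hCnv hd hC₀ hσ hB hE
    exact ⟨κ, h1, pos_of_lower h2 h⟩

/-- the statement of the theorem -/
def MainZ.{u} : Prop :=
  ∀ d : ℕ, 1 ≤ d → ∃ σ₁ C : ℝ, 0 < σ₁ ∧ 0 < C ∧ ∀ σ : ℝ, σ ≠ 0 →
    (∀ E : ℝ, (∀ κ : ℝ, 0 < κ → Filter.liminf (pr d σ E κ) Filter.atTop = 0) ∨
      ∃ (κ c : ℝ) (L₀ : ℕ), 0 < κ ∧ 0 < c ∧ ∀ L : ℕ, L₀ ≤ L →
        1 - pr d σ E κ L ≤ ENNReal.ofReal (Real.exp (-c * L))) ∧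
    IsOpen (LocP d σ) ∧ (σ₁ ≤ |σ| → LocP d σ = Set.univ) ∧
      (3 ≤ d → ∀ E : ℝ,
        2 * d + watson d * σ ^ 2 + C * |σ| ^ (2 + 1 / (24 * d : ℝ)) < |E| → E ∈ LocP d σ) ∧
      ∀ (Ω : Type u) [MeasurableSpace Ω] (P : Measure Ω) [IsProbabilityMeasure P]
        (ξ : Site d → Ω → ℝ), (∀ y, Measurable (ξ y)) →
        (∀ y, P.map (ξ y) = gaussianReal 0 1) → iIndepFun ξ P →
        (∀ K : Set ℝ, IsCompact K → K ⊆ LocP d σ → ∃ m : ℝ, 0 < m ∧ ∀ᵐ ω ∂P, ∀ E ∈ K,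
          ∀ ψ : Site d → ℂ,
            (∃ (B : ℝ) (k : ℕ), ∀ x, ‖ψ x‖ ≤ B * (1 + (sd 0 x : ℝ)) ^ k) →
            (∀ x, lap ψ x + ((σ * ξ x ω : ℝ) : ℂ) * ψ x = (E : ℂ) * ψ x) →
            ∃ B : ℝ, ∀ x, ‖ψ x‖ ≤ B * Real.exp (-m * sd 0 x)) ∧
        (∀ᵐ ω ∂P, ∀ c r : ℝ, Set.Icc (c - r) (c + r) ⊆ LocP d σ → ∀ u w : L2 d,
          (∀ x, w x = lap u x + ((σ * ξ x ω : ℝ) : ℂ) * u x) →
          (∀ (E : ℝ) (ψ : L2 d), E ∈ Set.Icc (c - r) (c + r) →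
            IsEigen (fun x => σ * ξ x ω) E ψ → ⟪ψ, u⟫ = 0) →
          r * ‖u‖ ≤ ‖w - (c : ℂ) • u‖) ∧
        (∀ a b β k : ℝ, Set.Icc a b ⊆ LocP d σ → 0 < β → ∃ T₀ : ℝ, ∀ T : ℝ, T₀ ≤ T →
          ∫⁻ ω, spread (fun x => σ * ξ x ω) T (T ^ β) (Set.Ioo a b) ∂P ≤
            ENNReal.ofReal (T ^ (-k))) ∧
        (∀ a b δ : ℝ, ¬ Set.Ioo a b ⊆ LocP d σ → 0 < δ → δ ≤ 1 → ∃ T₀ : ℝ, ∀ T : ℝ, T₀ ≤ T →
          ENNReal.ofReal (T ^ (-6 : ℝ)) ≤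
            ∫⁻ ω, spread (fun x => σ * ξ x ω) T (T ^ (1 / ((d : ℝ) + δ))) (Set.Ioo a b) ∂P)

theorem mainZ (hIni : In2Stmt) (hBlk : BlkStmt) (hLrg : LrgStmt) (hEdg : EdgStmt)
    (hBdc : BdcStmt) (hTbx : TbxStmt) (hSep : SepStmt) (hDcy : DcyStmt) (hCmp : CmpStmt)
    (hShf : ShfStmt) (hIns : InsStmt) (hZer : ZerStmt) (hCnv : CnvStmt) : MainZ := by
  intro d hd
  obtain ⟨C₀, hC₀, hB⟩ := hBlk d hd
  obtain ⟨σ₁, hσ₁, hL⟩ := hLrg d hd C₀ hC₀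
  obtain ⟨C, hC, hE⟩ : ∃ C : ℝ, 0 < C ∧ (3 ≤ d → ∀ C₀ σ : ℝ, 0 < C₀ → σ ≠ 0 →
      ∃ L : ℕ, ∀ E : ℝ,
      2 * d + watson d * σ ^ 2 + C * |σ| ^ (2 + 1 / (24 * d : ℝ)) ≤ |E| → Crit d C₀ σ E L) := by
    by_cases h3 : 3 ≤ d
    · obtain ⟨C, hC, h⟩ := hEdg d h3
      exact ⟨C, hC, fun _ => h⟩
    · exact ⟨1, one_pos, fun h => absurd h h3⟩
  refine ⟨σ₁, C, hσ₁, hC, fun σ hσ => ?_⟩
  rw [locP_eq hZer hCnv hd hC₀ hσ (hB σ hσ)]
  refine ⟨fun E => ?_, isOpen_LocSet d C₀ σ, ?_, ?_, ?_⟩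
  · by_cases hEl : E ∈ LocSet d C₀ σ
    · exact Or.inr (pr_lower hCnv hd hC₀ hσ (hB σ hσ) hEl)
    · exact Or.inl fun κ hκ => liminf_zero hZer hd hC₀ hσ hEl hκ
  · intro h
    ext E
    simp only [Set.mem_univ, iff_true]
    exact ⟨1, one_pos, 0, fun F _ => hL σ h F⟩
  · intro h3 E hEE
    obtain ⟨L, hLE⟩ := hE h3 C₀ σ hC₀ hσ
    set e := 2 * d + watson d * σ ^ 2 + C * |σ| ^ (2 + 1 / (24 * d : ℝ)) with he
    refine ⟨|E| - e, by linarith, L, fun F hF => hLE F ?_⟩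
    rw [Set.mem_Icc] at hF
    have h1 : |E| - |F| ≤ |E - F| := abs_sub_abs_le_abs_sub E F
    have h2 : |E - F| ≤ |E| - e := by
      rw [abs_le]
      constructor <;> linarith [hF.1, hF.2]
    linarith
  intro Ω _ P _ ξ hm hlaw hind
  obtain ⟨μ, hμ, hTB⟩ := exists_rate hBdc hTbx hd hC₀ hσ (hB σ hσ)
  refine ⟨?_, ?_, ?_, ?_⟩
  · intro K hK hKL
    obtain ⟨m, hm0, h⟩ := loc_compact hDcy hd hμ hTB hK hKL
    exact ⟨m, hm0, ae_transfer hm hlaw hind σ h⟩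
  · exact ae_transfer hm hlaw hind σ (loc_complete hSep hCmp hd hσ hμ hTB)
  · intro a b β k hsub hβ
    obtain ⟨T₀, h⟩ := ins_compact hBdc hIns hd hC₀ hσ (hB σ hσ) hsub hβ k
    refine ⟨max T₀ 1, fun T hT => ?_⟩
    have hT0 : 0 < T := lt_of_lt_of_le one_pos ((le_max_right _ _).trans hT)
    refine le_trans (le_of_eq ?_) (h T ((le_max_left _ _).trans hT))
    rw [← map_eq_PP hm hlaw hind σ]
    exact (lintegral_map (measurable_spread hShf (gl σ) hT0 (T ^ β) a b)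
      (measurable_W hm σ)).symm
  · intro a b δ hab hδ hδ1
    obtain ⟨E₀, hE₀, hE₀'⟩ := Set.not_subset.1 hab
    obtain ⟨T₀, hT₀, h⟩ := hIni d hd C₀ σ hC₀ hσ δ a b E₀ hδ hδ1 hE₀.1 hE₀.2
    refine ⟨T₀, fun T hT => ?_⟩
    by_contra hcon
    rw [not_le] at hcon
    apply hE₀'
    exact h T hT (lt_of_le_of_lt (lintegral_transfer hm hlaw hind σ
      (fun V => spread V T (T ^ (1 / ((d : ℝ) + δ))) (Set.Ioo a b))) hcon)

end Pool.Agent.LE.H93
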