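import Pool.Agent.LE.StmtsG
import Pool.Agent.Helper93_LE.Fin

/-!
# The Lyapunov exponent at every energy: assembly
-/

set_option autoImplicit false
set_option linter.unusedSectionVars false

open MeasureTheory ProbabilityTheory Function Filter

open scoped ENNReal BigOperators ComplexInnerProductSpace Topology

noncomputable section

namespace Pool.Agent.LE.H93

open Pool.Agent.Anderson Pool.Agent.Loc Pool.Agent.Helper54.Bal Pool.Agent.Mob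
  Pool.Agent.Mob.H42

variable {d : ℕ}

theorem pr_compl (σ E κ : ℝ) (L : ℕ) :
    PP d (gl σ) {V | ¬ SG V L κ E 0} = 1 - pr d σ E κ L := by
  have h3 : {V : Site d → ℝ | ¬ SG V L κ E 0} = {V : Site d → ℝ | SG V L κ E 0}ᶜ := rfl
  rw [h3, prob_compl_eq_one_sub (meas_SG L κ E 0)]
  rfl

theorem pr_le_one (σ E κ : ℝ) (L : ℕ) : pr d σ E κ L ≤ 1 := prob_le_one

theorem sg_mono {V : Site d → ℝ} {L : ℕ} {κ κ' E : ℝ} {v : Site d} (h : SG V L κ E v)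
    (hκ : κ' ≤ κ) : SG V L κ' E v := by
  refine ⟨h.1, fun u hu => (h.2 u hu).trans (Real.exp_le_exp.2 ?_)⟩
  have : (0:ℝ) ≤ L := by positivity
  nlinarith

theorem pr_anti (σ E : ℝ) {κ κ' : ℝ} (hκ : κ' ≤ κ) (L : ℕ) : pr d σ E κ L ≤ pr d σ E κ' L :=
  measure_mono fun _ hV => sg_mono hV hκ

/-- the probability tends to one -/
theorem pr_tendsto_one {σ E κ : ℝ}
    (h : Tendsto (fun L : ℕ => PP d (gl σ) {V | ¬ SG V L κ E 0}) atTop (𝓝 0)) :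
    Tendsto (pr d σ E κ) atTop (𝓝 1) := by
  have h1 : Tendsto (fun L : ℕ => 1 - PP d (gl σ) {V | ¬ SG V L κ E 0}) atTop (𝓝 (1 - 0)) :=
    ENNReal.Tendsto.sub tendsto_const_nhds h (Or.inl ENNReal.one_ne_top)
  rw [tsub_zero] at h1
  refine h1.congr fun L => ?_
  rw [pr_compl, ENNReal.sub_sub_cancel ENNReal.one_ne_top (pr_le_one σ E κ L)]

theorem gamma_pos_iff (hLoc : LocGStmt) (hCnv : CnvStmt) {C₀ σ : ℝ} (hd : 1 ≤ d) (hC₀ : 0 < C₀)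
    (hσ : σ ≠ 0) (hB : BlkAt d C₀ σ) {E γ : ℝ} (hγ : 0 ≤ γ)
    (h : ∀ ε : ℝ, 0 < ε → Tendsto (pr d σ E (γ + ε)) atTop (𝓝 0) ∧
      Tendsto (pr d σ E (γ - ε)) atTop (𝓝 1)) : 0 < γ ↔ E ∈ LocSet d C₀ σ := by
  constructor
  · intro hpos
    have h1 := (h (γ / 2) (by positivity)).2
    refine hLoc d C₀ σ E (γ - γ / 2) (1 / 2) hd hC₀ hσ (by linarith) (by norm_num) fun L₁ => ?_
    have h2 : ∀ᶠ L in atTop, (1 / 2 : ℝ≥0∞) < pr d σ E (γ - γ / 2) L :=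
      h1.eventually_const_lt (by rw [one_div]; exact ENNReal.one_half_lt_one)
    obtain ⟨L, hL1, hL2⟩ := (h2.and (eventually_ge_atTop L₁)).exists
    refine ⟨L, hL2, le_trans (le_of_eq ?_) hL1.le⟩
    rw [ENNReal.ofReal_div_of_pos (by norm_num)]
    simp
  · intro hE
    obtain ⟨κ, c, L₀, hκ, hc, hlow⟩ := pr_lower hCnv hd hC₀ hσ hB hE
    rcases hγ.lt_or_eq with hpos | h0
    · exact hpos
    exfalso
    have h1 := (h κ hκ).1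
    rw [← h0, zero_add] at h1
    have h2 := pos_of_lower hc hlow
    rw [h1.liminf_eq] at h2
    exact lt_irrefl _ h2

/-- the statement of the theorem -/
def MainG.{u} : Prop :=
  ∀ d : ℕ, 1 ≤ d → ∃ σ₁ C : ℝ, 0 < σ₁ ∧ 0 < C ∧ ∀ σ : ℝ, σ ≠ 0 → ∃ γ : ℝ → ℝ,
    (∀ E : ℝ, 0 ≤ γ E ∧ ∀ ε : ℝ, 0 < ε → Tendsto (pr d σ E (γ E + ε)) atTop (𝓝 0) ∧
      Tendsto (pr d σ E (γ E - ε)) atTop (𝓝 1)) ∧
    (∀ E : ℝ, 0 < γ E → ∃ κ c : ℝ, 0 < κ ∧ 0 < c ∧ ∀ᶠ L : ℕ in atTop,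
      1 - pr d σ E κ L ≤ ENNReal.ofReal (Real.exp (-c * L))) ∧
    IsOpen {E | 0 < γ E} ∧ (σ₁ ≤ |σ| → ∀ E, 0 < γ E) ∧
      (3 ≤ d → ∀ E : ℝ,
        2 * d + watson d * σ ^ 2 + C * |σ| ^ (2 + 1 / (24 * d : ℝ)) < |E| → 0 < γ E) ∧
      ∀ (Ω : Type u) [MeasurableSpace Ω] (P : Measure Ω) [IsProbabilityMeasure P]
        (ξ : Site d → Ω → ℝ), (∀ y, Measurable (ξ y)) →
        (∀ y, P.map (ξ y) = gaussianReal 0 1) → iIndepFun ξ P →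
        (∀ K : Set ℝ, IsCompact K → K ⊆ {E | 0 < γ E} → ∃ m : ℝ, 0 < m ∧ ∀ᵐ ω ∂P, ∀ E ∈ K,
          ∀ ψ : Site d → ℂ,
            (∃ (B : ℝ) (k : ℕ), ∀ x, ‖ψ x‖ ≤ B * (1 + (sd 0 x : ℝ)) ^ k) →
            (∀ x, lap ψ x + ((σ * ξ x ω : ℝ) : ℂ) * ψ x = (E : ℂ) * ψ x) →
            ∃ B : ℝ, ∀ x, ‖ψ x‖ ≤ B * Real.exp (-m * sd 0 x)) ∧
        (∀ᵐ ω ∂P, ∀ c r : ℝ, Set.Icc (c - r) (c + r) ⊆ {E | 0 < γ E} → ∀ u w : L2 d,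
          (∀ x, w x = lap u x + ((σ * ξ x ω : ℝ) : ℂ) * u x) →
          (∀ (E : ℝ) (ψ : L2 d), E ∈ Set.Icc (c - r) (c + r) →
            IsEigen (fun x => σ * ξ x ω) E ψ → ⟪ψ, u⟫ = 0) →
          r * ‖u‖ ≤ ‖w - (c : ℂ) • u‖) ∧
        (∀ a b β k : ℝ, Set.Icc a b ⊆ {E | 0 < γ E} → 0 < β → ∃ T₀ : ℝ, ∀ T : ℝ, T₀ ≤ T →
          ∫⁻ ω, spread (fun x => σ * ξ x ω) T (T ^ β) (Set.Ioo a b) ∂P ≤
            ENNReal.ofReal (T ^ (-k))) ∧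
        (∀ a b δ : ℝ, ¬ Set.Ioo a b ⊆ {E | 0 < γ E} → 0 < δ → δ ≤ 1 → ∃ T₀ : ℝ, ∀ T : ℝ,
          T₀ ≤ T → ENNReal.ofReal (T ^ (-6 : ℝ)) ≤
            ∫⁻ ω, spread (fun x => σ * ξ x ω) T (T ^ (1 / ((d : ℝ) + δ))) (Set.Ioo a b) ∂P)

theorem mainG (hIni : In2Stmt) (hBlk : BlkStmt) (hLrg : LrgStmt) (hEdg : EdgStmt)
    (hBdc : BdcStmt) (hTbx : TbxStmt) (hSep : SepStmt) (hDcy : DcyStmt) (hCmp : CmpStmt)
    (hShf : ShfStmt) (hIns : InsStmt) (hLya : LyaStmt) (hLoc : LocGStmt) (hCnv : CnvStmt) :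
    MainG := by
  intro d hd
  obtain ⟨C₀, hC₀, hB⟩ := hBlk d hd
  obtain ⟨σ₁, hσ₁, hL⟩ := hLrg d hd C₀ hC₀
  obtain ⟨C, hC, hE⟩ : ∃ C : ℝ, 0 < C ∧ (3 ≤ d → ∀ C₀ σ : ℝ, 0 < C₀ → σ ≠ 0 →
      ∃ L : ℕ, ∀ E : ℝ,
      2 * d + watson d * σ ^ 2 + C * |σ| ^ (2 + 1 / (24 * d : ℝ)) ≤ |E| → Crit d C₀ σ E L) := by
    by_cases h3 : 3 ≤ d
    · obtain ⟨C, hC, h⟩ := hEdg d h3
      exact ⟨C, hC, fun _ => h⟩
    · exact ⟨1, one_pos, fun h => absurd h h3⟩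
  refine ⟨σ₁, C, hσ₁, hC, fun σ hσ => ?_⟩
  have hlya := fun E => hLya d σ E hd hσ
  choose γ hγ hlim using hlya
  have hlim' : ∀ E : ℝ, ∀ ε : ℝ, 0 < ε → Tendsto (pr d σ E (γ E + ε)) atTop (𝓝 0) ∧
      Tendsto (pr d σ E (γ E - ε)) atTop (𝓝 1) :=
    fun E ε hε => ⟨(hlim E ε hε).1, pr_tendsto_one (hlim E ε hε).2⟩
  have hset : {E | 0 < γ E} = LocSet d C₀ σ := by
    ext E
    exact gamma_pos_iff hLoc hCnv hd hC₀ hσ (hB σ hσ) (hγ E) (hlim' E)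
  refine ⟨γ, fun E => ⟨hγ E, hlim' E⟩, ?_, ?_⟩
  · intro E hE
    have hE' : E ∈ LocSet d C₀ σ := hset ▸ hE
    obtain ⟨κ, c, L₀, hκ, hc, hlow⟩ := pr_lower hCnv hd hC₀ hσ (hB σ hσ) hE'
    exact ⟨κ, c, hκ, hc, eventually_atTop.2 ⟨L₀, hlow⟩⟩
  rw [hset]
  refine ⟨isOpen_LocSet d C₀ σ, ?_, ?_, ?_⟩
  · intro h E
    have h1 : E ∈ LocSet d C₀ σ := ⟨1, one_pos, 0, fun F _ => hL σ h F⟩
    rw [← hset] at h1
    exact h1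
  · intro h3 E hEE
    obtain ⟨L, hLE⟩ := hE h3 C₀ σ hC₀ hσ
    set e := 2 * d + watson d * σ ^ 2 + C * |σ| ^ (2 + 1 / (24 * d : ℝ)) with he
    have h0 : E ∈ LocSet d C₀ σ := by
      refine ⟨|E| - e, by linarith, L, fun F hF => hLE F ?_⟩
      rw [Set.mem_Icc] at hF
      have h1 : |E| - |F| ≤ |E - F| := abs_sub_abs_le_abs_sub E F
      have h2 : |E - F| ≤ |E| - e := by
        rw [abs_le]
        constructor <;> linarith [hF.1, hF.2]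
      linarith
    rw [← hset] at h0
    exact h0
  intro Ω _ P _ ξ hm hlaw hind
  obtain ⟨μ, hμ, hTB⟩ := exists_rate hBdc hTbx hd hC₀ hσ (hB σ hσ)
  refine ⟨?_, ?_, ?_, ?_⟩
  · intro K hK hKL
    obtain ⟨m, hm0, h⟩ := loc_compact hDcy hd hμ hTB hK hKL
    exact ⟨m, hm0, ae_transfer hm hlaw hind σ h⟩
  · exact ae_transfer hm hlaw hind σ (loc_complete hSep hCmp hd hσ hμ hTB)
  · intro a b β k hsub hβ
    obtain ⟨T₀, h⟩ := ins_compact hBdc hIns hd hC₀ hσ (hB σ hσ) hsub hβ k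
    refine ⟨max T₀ 1, fun T hT => ?_⟩
    have hT0 : 0 < T := lt_of_lt_of_le one_pos ((le_max_right _ _).trans hT)
    refine le_trans (le_of_eq ?_) (h T ((le_max_left _ _).trans hT))
    rw [← map_eq_PP hm hlaw hind σ]
    exact (lintegral_map (measurable_spread hShf (gl σ) hT0 (T ^ β) a b)
      (measurable_W hm σ)).symm
  · intro a b δ hab hδ hδ1
    obtain ⟨E₀, hE₀, hE₀'⟩ := Set.not_subset.1 hab
    obtain ⟨T₀, hT₀, h⟩ := hIni d hd C₀ σ hC₀ hσ δ a b E₀ hδ hδ1 hE₀.1 hE₀.2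
    refine ⟨T₀, fun T hT => ?_⟩
    by_contra hcon
    rw [not_le] at hcon
    apply hE₀'
    exact h T hT (lt_of_le_of_lt (lintegral_transfer hm hlaw hind σ
      (fun V => spread V T (T ^ (1 / ((d : ℝ) + δ))) (Set.Ioo a b))) hcon)

end Pool.Agent.LE.H93
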