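import Pool.Agent.Helper93_LE.Fin
import Pool.Agent.Helper28_LE.PhoA
import Pool.Agent.Helper77_LE.Avs
import Pool.Agent.Helper69_LE.Shi
import Pool.Agent.Helper26_LE.Pig
import Pool.Agent.Helper54_LE.FMN
import Pool.Agent.Helper46_LE.Fvd
import Pool.Agent.Helper59_LE.Gev3
import Pool.Agent.Helper3_LE.ConA
import Pool.Agent.Helper17_LE.Zer
import Pool.Agent.Helper65_LE.CNV
import Pool.Agent.Helper42_LE.Msa
import Pool.Agent.Helper42_LE.Msd
import Pool.Agent.Helper59_LE.Msp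
import Pool.Agent.Helper59_LE.Blo
import Pool.Agent.Helper59_LE.Dbl
import Pool.Agent.Helper83_LE.DetA
import Pool.Agent.Helper15_LE.MSN
import Pool.Agent.Helper54_LY.Chn3
import Pool.Agent.Helper54_LY.Fin

/-!
# The zero-one law: all modules
-/

set_option autoImplicit false

open MeasureTheory ProbabilityTheory

noncomputable section

namespace Pool.Agent.LE.H93

open Pool.Agent.Anderson Pool.Agent.Loc Pool.Agent.Helper54.Bal Pool.Agent.Mob

theorem msaT : MsaStmt :=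
  Pool.Agent.LE.H42.msa (Pool.Agent.LE.H59.msp Pool.Agent.LE.H42.msd) Pool.Agent.LE.H15.msn

theorem gevT (hPig : PigStmt) : GevStmt :=
  Pool.Agent.LE.H59.gev hPig Pool.Agent.LE.H54.fmn
    (fun d σ E _ hσ => ⟨_, Pool.Agent.LY.oneTail (d := d) hσ E⟩)
    (fun d σ E _ hσ => Pool.Agent.LY.chn (d := d) hσ E)

theorem pigT : PigStmt :=
  Pool.Agent.LE.H26A.pig Pool.Agent.LE.H28A.pho (Pool.Agent.LE.H59A.dbl Pool.Agent.LE.H77.avs)
    (Pool.Agent.LE.H59A.blo Pool.Agent.LE.H77.avs) Pool.Agent.LE.H69.shi Pool.Agent.LE.H77.avs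

theorem detT : DetStmt := Pool.Agent.LE.H83A.det Pool.Agent.LE.H46.fvd

theorem zerT : ZerStmt :=
  Pool.Agent.LE.H17.zer (Pool.Agent.LE.H3A.con (gevT pigT) detT) msaT

theorem cnvT : CnvStmt := Pool.Agent.LE.H65.cnv Pool.Agent.Mob.H58.bdc

theorem mainZT.{u} : MainZ.{u} :=
  mainZ in2T blkT H32.lrg H58.edg H58.bdc H75.tbx (H6.sep wegT) H48.dcy
    (H46.cmp (H98.dic H32.nrm) H48.cen) H25.shf insT zerT cnvT

end Pool.Agent.LE.H93
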