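import Pool.Agent.Helper93_LE.FinG

/-!
# MP_1906c1_mp: the Lyapunov exponent at every energy, and the localized phase

For `H = Δ + σ ξ` on `ℤ^d` (any `d ≥ 1`), `ξ` iid standard Gaussian, `σ ≠ 0`, and every real energy
`E`, the Green function of the cube `|x|_∞ ≤ L` between the centre and the boundary has a typical
rate of exponential decay: there is a nonrandom number `γ(E) ≥ 0` such that

  `- (1 / L) log max_{|u|_∞ = L} |G_L(0, u; E)| → γ(E)` in probability, as `L → ∞`.

The energies with `γ(E) > 0` are an open set, in which there is localization (exponential decay of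
all polynomially bounded solutions, completeness of the eigenfunctions, dynamical localization).
Near each energy with `γ(E) = 0` the transport exponent is at least `1/d`.

The proof of the existence of `γ`. In a cube of radius `N`, at a real energy, `D(x, y) = -log |G(x, y)|`
is almost subadditive: `|G(x, u)| |G(u, y)| ≤ e^t |G(x, y)|` outside an event of probability
`C e^{-t}`. Average over the base point `a` in a large cube and let `N → ∞` along an ultrafilter: the
norms in `L²` of `X_ℓ = D(a, a + ℓ y) / ℓ` converge (Fekete), the norm of `(X_ℓ + X_ℓ') / 2` is at least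
that of `X_{ℓℓ'}` up to small errors, and the parallelogram identity shows that `X_ℓ` is a Cauchy
sequence. So at all large scales `D(a, a + ℓ y)` is almost invariant under the shifts of `a` by
multiples of `ℓ`. By the comparison of the Green functions of the cubes of radius `L` and of the large
cube, the decay rates of two disjoint cubes of radius `L` are almost equal with high probability; they
are independent, so they are almost constant; and the constants of two scales are almost equal.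
If `γ(E) > 0` there is decay with a probability close to one, a multiscale induction at the energy
`E` makes this probability superpolynomially close to one, and a finite volume criterion for
fractional moments gives localization near `E`.
-/

set_option autoImplicit false

open MeasureTheory ProbabilityTheory Filter

open scoped ENNReal ComplexInnerProductSpace Topology

noncomputable section

namespace Pool.Agent.Helper93LE.LyapunovExponent

open Pool.Agent.Anderson Pool.Agent.Loc Pool.Agent.Helper54.Bal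

universe u

variable {d : ℕ}

/-- Exponential decay, at the rate `κ`, of the Green function of `H = Δ + V` in the cube
`box 0 L`, `|x|_∞ ≤ L`, from the centre to the boundary: `E` is not an eigenvalue of the
restriction of `H` to the cube and the matrix element at `0`, `u` of the inverse of `E - H` in the
cube is at most `e^{-κ L}` for all `u` with `|u|_∞ = L`. -/
def Decays (V : Site d → ℝ) (E κ : ℝ) (L : ℕ) : Prop :=
  (RM V (box 0 L) E).det ≠ 0 ∧ ∀ u, sd 0 u = L → |gr V (box 0 L) E 0 u| ≤ Real.exp (-κ * L)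

/-- The probability of decay, for `V = σ ξ`, `ξ` independent standard Gaussians. -/
def prob (d : ℕ) (σ E κ : ℝ) (L : ℕ) : ℝ≥0∞ :=
  (Measure.infinitePi fun _ : Site d => gaussianReal 0 1)
    {ξ : Site d → ℝ | Decays (fun x => σ * ξ x) E κ L}

/-- `(H - z)⁻¹ δ₀` for `H = Δ + V`: the solution `g ∈ ℓ²(ℤ^d)` of `(Δ + V - z) g = δ₀`. For
`Im z ≠ 0` it exists and is unique. -/
def green (V : Site d → ℝ) (z : ℂ) : L2 d :=
  open Classical in
  if h : ∃ g : L2 d, ∀ x, lap g x + ((V x : ℂ) - z) * g x = if x = 0 then 1 else 0 then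
    h.choose else 0

/-- The time averaged mass at distance at least `R` from `0` at the time scale `T`, for the energies
in `(a, b)`: `(1/T) ∫_a^b ∑_{|x| ≥ R} |(H - E - i/T)⁻¹(0, x)|² dE`. Without the restriction on the
energies it is `(2 π / T) ∫₀^∞ e^(-2t/T) ∑_{|x| ≥ R} |(e^(-itH) δ₀)(x)|² dt`. -/
def spreading (V : Site d → ℝ) (T R a b : ℝ) : ℝ≥0∞ :=
  ∫⁻ E in Set.Ioo a b, ∑' x : Site d, if R ≤ (sd 0 x : ℝ) then
    ENNReal.ofReal (‖green V ((E : ℂ) + Complex.I / T) x‖ ^ 2 / T) else 0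

theorem green_eq (V : Site d → ℝ) {z : ℂ} (hz : z.im ≠ 0) : green V z = G V z (del 0) := by
  have hdel : ∀ x, (del (0 : Site d) : L2 d) x = if x = 0 then 1 else 0 := fun x => del_apply 0 x
  have hex : ∃ g : L2 d, ∀ x, lap g x + ((V x : ℂ) - z) * g x = if x = 0 then 1 else 0 :=
    ⟨G V z (del 0), fun x => (G_eq hz (del 0) x).trans (hdel x)⟩
  unfold green
  rw [dif_pos hex]
  exact G_unique hz fun x => (hex.choose_spec x).trans (hdel x).symm

theorem spreading_eq (V : Site d → ℝ) {T : ℝ} (hT : T ≠ 0) (R a b : ℝ) :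
    spreading V T R a b = Pool.Agent.Mob.spread V T R (Set.Ioo a b) := by
  unfold spreading Pool.Agent.Mob.spread
  refine lintegral_congr fun E => tsum_congr fun x => ?_
  have h1 : (E : ℂ) + Complex.I / T = zz (1 / T) E := by
    unfold zz
    push_cast
    ring
  have h2 : (zz (1 / T) E).im ≠ 0 := by
    rw [zz_im]
    exact one_div_ne_zero hT
  rw [h1, green_eq V h2]

theorem prob_eq (σ E κ : ℝ) (L : ℕ) : prob d σ E κ L = Pool.Agent.LE.H93.pr d σ E κ L := by
  have hm : ∀ y : Site d, Measurable fun ξ : Site d → ℝ => ξ y := fun y => measurable_pi_apply y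
  have hlaw : ∀ y : Site d, (Measure.infinitePi fun _ : Site d => gaussianReal 0 1).map
      (fun ξ => ξ y) = gaussianReal 0 1 := fun y =>
    (measurePreserving_eval_infinitePi (fun _ : Site d => gaussianReal 0 1) y).map_eq
  have hind : iIndepFun (fun (y : Site d) (ξ : Site d → ℝ) => ξ y)
      (Measure.infinitePi fun _ : Site d => gaussianReal 0 1) :=
    iIndepFun_infinitePi (P := fun _ : Site d => gaussianReal 0 1) (X := fun _ t => t)
      (fun _ => measurable_id)
  have h := Pool.Agent.Mob.H42.map_eq_PP hm hlaw hind σ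
  unfold Pool.Agent.LE.H93.pr prob
  rw [← h, Measure.map_apply (Pool.Agent.Mob.H42.measurable_W hm σ)
    (Pool.Agent.LE.H93.meas_SG L κ E 0)]
  rfl

/-- Let `d ≥ 1`, `σ ≠ 0`, `H = Δ + σ ξ` with `ξ(y)`, `y ∈ ℤ^d`, independent standard Gaussians.
There is a function `γ ≥ 0` such that for every real `E` and every `ε > 0` the probability of decay
at the rate `γ(E) + ε` in the cube of radius `L` tends to `0`, and the probability of decay at the
rate `γ(E) - ε` tends to `1`, as `L → ∞`. The set `{γ > 0}` is open, it contains all large `|E|` if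
`d ≥ 3`, and for each family `ξ` of independent standard Gaussians:

* for each compact `K ⊆ {γ > 0}`, almost surely, every polynomially bounded solution of
  `H ψ = E ψ` with `E ∈ K` decays exponentially, with a rate `m > 0` which depends on `K`;
* almost surely, for all `[c - r, c + r] ⊆ {γ > 0}`: a vector `u ∈ ℓ²` with `w = H u ∈ ℓ²` which is
  orthogonal to the eigenfunctions with eigenvalues in `[c - r, c + r]` satisfies
  `‖(H - c) u‖ ≥ r ‖u‖`, so the spectrum is pure point in `(c - r, c + r)`;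
* if `[a, b] ⊆ {γ > 0}` then, for all `β > 0` and `k`, the mean of `spreading T (T ^ β) a b` is at
  most `T ^ (-k)` for large `T` (dynamical localization);
* if `(a, b)` is not contained in `{γ > 0}`, the mean of `spreading T (T ^ (1/(d+δ))) a b` is at
  least `T ^ (-6)`, for all large `T`, for each `δ ∈ (0, 1]`. -/
theorem result' (hG : Pool.Agent.LE.H93.MainG.{u}) (d : ℕ) (hd : 1 ≤ d) (σ : ℝ) (hσ : σ ≠ 0) :
    ∃ γ : ℝ → ℝ,
    (∀ E : ℝ, 0 ≤ γ E ∧ ∀ ε : ℝ, 0 < ε →
      Tendsto (prob d σ E (γ E + ε)) atTop (𝓝 0) ∧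
      Tendsto (prob d σ E (γ E - ε)) atTop (𝓝 1)) ∧
    IsOpen {E | 0 < γ E} ∧
    (3 ≤ d → ∃ K : ℝ, ∀ E : ℝ, K < |E| → 0 < γ E) ∧
    ∀ (Ω : Type u) [MeasurableSpace Ω] (P : Measure Ω) [IsProbabilityMeasure P]
      (ξ : Site d → Ω → ℝ), (∀ y, Measurable (ξ y)) →
      (∀ y, P.map (ξ y) = gaussianReal 0 1) → iIndepFun ξ P →
      (∀ K : Set ℝ, IsCompact K → K ⊆ {E | 0 < γ E} → ∃ m : ℝ, 0 < m ∧ ∀ᵐ ω ∂P, ∀ E ∈ K,
        ∀ ψ : Site d → ℂ,
          (∃ (B : ℝ) (k : ℕ), ∀ x, ‖ψ x‖ ≤ B * (1 + (sd 0 x : ℝ)) ^ k) →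
          (∀ x, lap ψ x + ((σ * ξ x ω : ℝ) : ℂ) * ψ x = (E : ℂ) * ψ x) →
          ∃ B : ℝ, ∀ x, ‖ψ x‖ ≤ B * Real.exp (-m * sd 0 x)) ∧
      (∀ᵐ ω ∂P, ∀ c r : ℝ, Set.Icc (c - r) (c + r) ⊆ {E | 0 < γ E} → ∀ u w : L2 d,
        (∀ x, w x = lap u x + ((σ * ξ x ω : ℝ) : ℂ) * u x) →
        (∀ (E : ℝ) (ψ : L2 d), E ∈ Set.Icc (c - r) (c + r) →
          IsEigen (fun x => σ * ξ x ω) E ψ → ⟪ψ, u⟫ = 0) →
        r * ‖u‖ ≤ ‖w - (c : ℂ) • u‖) ∧
      (∀ a b β k : ℝ, Set.Icc a b ⊆ {E | 0 < γ E} → 0 < β → ∃ T₀ : ℝ, ∀ T : ℝ, T₀ ≤ T →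
        ∫⁻ ω, spreading (fun x => σ * ξ x ω) T (T ^ β) a b ∂P ≤ ENNReal.ofReal (T ^ (-k))) ∧
      (∀ a b δ : ℝ, ¬ Set.Ioo a b ⊆ {E | 0 < γ E} → 0 < δ → δ ≤ 1 → ∃ T₀ : ℝ, ∀ T : ℝ,
        T₀ ≤ T → ENNReal.ofReal (T ^ (-6 : ℝ)) ≤
          ∫⁻ ω, spreading (fun x => σ * ξ x ω) T (T ^ (1 / ((d : ℝ) + δ))) a b ∂P) := by
  obtain ⟨σ₁, C, hσ₁, hC, h⟩ := hG d hd
  obtain ⟨γ, h0, -, h1, h2, h3, h4⟩ := h σ hσ
  refine ⟨γ, fun E => ⟨(h0 E).1, fun ε hε => ?_⟩, h1, fun hd3 => ⟨_, h3 hd3⟩, ?_⟩
  · have e : ∀ κ, prob d σ E κ = Pool.Agent.LE.H93.pr d σ E κ :=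
      fun κ => funext fun L => prob_eq σ E κ L
    rw [e, e]
    exact (h0 E).2 ε hε
  intro Ω _ P _ ξ hm hlaw hind
  obtain ⟨g1, g2, g3, g4⟩ := h4 Ω P ξ hm hlaw hind
  refine ⟨g1, g2, ?_, ?_⟩
  · intro a b β k hab hβ
    obtain ⟨T₀, hT⟩ := g3 a b β k hab hβ
    refine ⟨max T₀ 1, fun T hTT => ?_⟩
    have hT0 : T ≠ 0 := (lt_of_lt_of_le one_pos ((le_max_right _ _).trans hTT)).ne'
    simp only [spreading_eq _ hT0]
    exact hT T ((le_max_left _ _).trans hTT)
  · intro a b δ hab hδ hδ1
    obtain ⟨T₀, hT⟩ := g4 a b δ hab hδ hδ1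
    refine ⟨max T₀ 1, fun T hTT => ?_⟩
    have hT0 : T ≠ 0 := (lt_of_lt_of_le one_pos ((le_max_right _ _).trans hTT)).ne'
    simp only [spreading_eq _ hT0]
    exact hT T ((le_max_left _ _).trans hTT)

end Pool.Agent.Helper93LE.LyapunovExponent
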