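import Pool.Agent.Helper93_LE.All

/-!
# MP_1906c1_mp: a zero-one law for the decay of the Green function, at every energy

For `H = Δ + σ ξ` on `ℤ^d` (any `d ≥ 1`), `ξ` iid standard Gaussian, `σ ≠ 0`, let `prob d σ E κ L`
be the probability that the Green function of the cube `|x|_∞ ≤ L` at the energy `E`, between the
centre and each site of the boundary, is at most `e^{-κ L}`.
-/

set_option autoImplicit false

open MeasureTheory ProbabilityTheory

open scoped ENNReal ComplexInnerProductSpace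

noncomputable section

namespace Pool.Agent.Helper93LE.ZeroOneLaw

open Pool.Agent.Anderson Pool.Agent.Loc Pool.Agent.Helper54.Bal

universe u

variable {d : ℕ}

/-- Exponential decay, at the rate `κ`, of the Green function of `H = Δ + V` in the cube
`box 0 L`, `|x|_∞ ≤ L`, from the centre to the boundary: `E` is not an eigenvalue of the
restriction of `H` to the cube and the matrix element at `0`, `u` of the inverse of `E - H` in the
cube is at most `e^{-κ L}` for all `u` with `|u|_∞ = L`. -/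
def Decays (V : Site d → ℝ) (E κ : ℝ) (L : ℕ) : Prop :=
  (RM V (box 0 L) E).det ≠ 0 ∧ ∀ u, sd 0 u = L → |gr V (box 0 L) E 0 u| ≤ Real.exp (-κ * L)

/-- The probability of decay, for `V = σ ξ`, `ξ` independent standard Gaussians. -/
def prob (d : ℕ) (σ E κ : ℝ) (L : ℕ) : ℝ≥0∞ :=
  (Measure.infinitePi fun _ : Site d => gaussianReal 0 1)
    {ξ : Site d → ℝ | Decays (fun x => σ * ξ x) E κ L}

/-- The energies at which, for some rate `κ > 0`, the probability of decay stays away from `0` as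
`L → ∞`. -/
def LocEnergies (d : ℕ) (σ : ℝ) : Set ℝ :=
  {E | ∃ κ : ℝ, 0 < κ ∧ 0 < Filter.liminf (prob d σ E κ) Filter.atTop}

/-- `(H - z)⁻¹ δ₀` for `H = Δ + V`: the solution `g ∈ ℓ²(ℤ^d)` of `(Δ + V - z) g = δ₀`. For
`Im z ≠ 0` it exists and is unique. -/
def green (V : Site d → ℝ) (z : ℂ) : L2 d :=
  open Classical in
  if h : ∃ g : L2 d, ∀ x, lap g x + ((V x : ℂ) - z) * g x = if x = 0 then 1 else 0 then
    h.choose else 0

/-- The time averaged mass at distance at least `R` from `0` at the time scale `T`, for the energies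
in `(a, b)`: `(1/T) ∫_a^b ∑_{|x| ≥ R} |(H - E - i/T)⁻¹(0, x)|² dE`. Without the restriction on the
energies it is `(2 π / T) ∫₀^∞ e^(-2t/T) ∑_{|x| ≥ R} |(e^(-itH) δ₀)(x)|² dt`. -/
def spreading (V : Site d → ℝ) (T R a b : ℝ) : ℝ≥0∞ :=
  ∫⁻ E in Set.Ioo a b, ∑' x : Site d, if R ≤ (sd 0 x : ℝ) then
    ENNReal.ofReal (‖green V ((E : ℂ) + Complex.I / T) x‖ ^ 2 / T) else 0

theorem green_eq (V : Site d → ℝ) {z : ℂ} (hz : z.im ≠ 0) : green V z = G V z (del 0) := by
  have hdel : ∀ x, (del (0 : Site d) : L2 d) x = if x = 0 then 1 else 0 := fun x => del_apply 0 x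
  have hex : ∃ g : L2 d, ∀ x, lap g x + ((V x : ℂ) - z) * g x = if x = 0 then 1 else 0 :=
    ⟨G V z (del 0), fun x => (G_eq hz (del 0) x).trans (hdel x)⟩
  unfold green
  rw [dif_pos hex]
  exact G_unique hz fun x => (hex.choose_spec x).trans (hdel x).symm

theorem spreading_eq (V : Site d → ℝ) {T : ℝ} (hT : T ≠ 0) (R a b : ℝ) :
    spreading V T R a b = Pool.Agent.Mob.spread V T R (Set.Ioo a b) := by
  unfold spreading Pool.Agent.Mob.spread
  refine lintegral_congr fun E => tsum_congr fun x => ?_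
  have h1 : (E : ℂ) + Complex.I / T = zz (1 / T) E := by
    unfold zz
    push_cast
    ring
  have h2 : (zz (1 / T) E).im ≠ 0 := by
    rw [zz_im]
    exact one_div_ne_zero hT
  rw [h1, green_eq V h2]

theorem prob_eq (σ E κ : ℝ) (L : ℕ) : prob d σ E κ L = Pool.Agent.LE.H93.pr d σ E κ L := by
  have hm : ∀ y : Site d, Measurable fun ξ : Site d → ℝ => ξ y := fun y => measurable_pi_apply y
  have hlaw : ∀ y : Site d, (Measure.infinitePi fun _ : Site d => gaussianReal 0 1).map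
      (fun ξ => ξ y) = gaussianReal 0 1 := fun y =>
    (measurePreserving_eval_infinitePi (fun _ : Site d => gaussianReal 0 1) y).map_eq
  have hind : iIndepFun (fun (y : Site d) (ξ : Site d → ℝ) => ξ y)
      (Measure.infinitePi fun _ : Site d => gaussianReal 0 1) :=
    iIndepFun_infinitePi (P := fun _ : Site d => gaussianReal 0 1) (X := fun _ t => t)
      (fun _ => measurable_id)
  have h := Pool.Agent.Mob.H42.map_eq_PP hm hlaw hind σ
  unfold Pool.Agent.LE.H93.pr prob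
  rw [← h, Measure.map_apply (Pool.Agent.Mob.H42.measurable_W hm σ)
    (Pool.Agent.LE.H93.meas_SG L κ E 0)]
  rfl

theorem locEnergies_eq (σ : ℝ) : LocEnergies d σ = Pool.Agent.LE.H93.LocP d σ := by
  have h : ∀ E κ, prob d σ E κ = Pool.Agent.LE.H93.pr d σ E κ :=
    fun E κ => funext fun L => prob_eq σ E κ L
  ext E
  simp only [LocEnergies, Pool.Agent.LE.H93.LocP, h]

/-- Let `d ≥ 1`, `σ ≠ 0`, `H = Δ + σ ξ` with `ξ(y)`, `y ∈ ℤ^d`, independent standard Gaussians.

The zero-one law: for every real `E`, either for every rate `κ > 0` the lower limit, as `L → ∞`,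
of the probability of decay at the rate `κ` is `0`, or for some `κ, c > 0` the probability
that there is no decay at the rate `κ` is at most `e^{-c L}` for large `L`.

Let `Loc = LocEnergies d σ` be the set of the energies of the second kind. It is open, it contains
all large `|E|` if `d ≥ 3`, and for each family `ξ` of independent standard Gaussians:

* for each compact `K ⊆ Loc`, almost surely, every polynomially bounded solution of `H ψ = E ψ`
  with `E ∈ K` decays exponentially, with a rate `m > 0` which depends on `K`;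
* almost surely, for all `[c - r, c + r] ⊆ Loc`: a vector `u ∈ ℓ²` with `w = H u ∈ ℓ²` which is
  orthogonal to the eigenfunctions with eigenvalues in `[c - r, c + r]` satisfies
  `‖(H - c) u‖ ≥ r ‖u‖`, so the spectrum is pure point in `(c - r, c + r)`;
* if `[a, b] ⊆ Loc` then, for all `β > 0` and `k`, the mean of `spreading T (T ^ β) a b` is at most
  `T ^ (-k)` for large `T` (dynamical localization). -/
theorem result (d : ℕ) (hd : 1 ≤ d) (σ : ℝ) (hσ : σ ≠ 0) :
    (∀ E : ℝ,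
      (∀ κ : ℝ, 0 < κ → Filter.liminf (prob d σ E κ) Filter.atTop = 0) ∨
      ∃ κ c : ℝ, 0 < κ ∧ 0 < c ∧ ∀ᶠ L : ℕ in Filter.atTop,
        1 - prob d σ E κ L ≤ ENNReal.ofReal (Real.exp (-c * L))) ∧
    IsOpen (LocEnergies d σ) ∧
    (3 ≤ d → ∃ K : ℝ, ∀ E : ℝ, K < |E| → E ∈ LocEnergies d σ) ∧
    ∀ (Ω : Type u) [MeasurableSpace Ω] (P : Measure Ω) [IsProbabilityMeasure P]
      (ξ : Site d → Ω → ℝ), (∀ y, Measurable (ξ y)) →
      (∀ y, P.map (ξ y) = gaussianReal 0 1) → iIndepFun ξ P →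
      (∀ K : Set ℝ, IsCompact K → K ⊆ LocEnergies d σ → ∃ m : ℝ, 0 < m ∧ ∀ᵐ ω ∂P, ∀ E ∈ K,
        ∀ ψ : Site d → ℂ,
          (∃ (B : ℝ) (k : ℕ), ∀ x, ‖ψ x‖ ≤ B * (1 + (sd 0 x : ℝ)) ^ k) →
          (∀ x, lap ψ x + ((σ * ξ x ω : ℝ) : ℂ) * ψ x = (E : ℂ) * ψ x) →
          ∃ B : ℝ, ∀ x, ‖ψ x‖ ≤ B * Real.exp (-m * sd 0 x)) ∧
      (∀ᵐ ω ∂P, ∀ c r : ℝ, Set.Icc (c - r) (c + r) ⊆ LocEnergies d σ → ∀ u w : L2 d,
        (∀ x, w x = lap u x + ((σ * ξ x ω : ℝ) : ℂ) * u x) →
        (∀ (E : ℝ) (ψ : L2 d), E ∈ Set.Icc (c - r) (c + r) →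
          IsEigen (fun x => σ * ξ x ω) E ψ → ⟪ψ, u⟫ = 0) →
        r * ‖u‖ ≤ ‖w - (c : ℂ) • u‖) ∧
      (∀ a b β k : ℝ, Set.Icc a b ⊆ LocEnergies d σ → 0 < β → ∃ T₀ : ℝ, ∀ T : ℝ, T₀ ≤ T →
        ∫⁻ ω, spreading (fun x => σ * ξ x ω) T (T ^ β) a b ∂P ≤ ENNReal.ofReal (T ^ (-k))) := by
  obtain ⟨σ₁, C, hσ₁, hC, h⟩ := Pool.Agent.LE.H93.mainZT.{u} d hd
  obtain ⟨h0, h1, h2, h3, h4⟩ := h σ hσ
  rw [locEnergies_eq]
  refine ⟨fun E => ?_, h1, fun hd3 => ⟨_, h3 hd3⟩, ?_⟩
  · have e : ∀ κ, prob d σ E κ = Pool.Agent.LE.H93.pr d σ E κ :=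
      fun κ => funext fun L => prob_eq σ E κ L
    simp only [e]
    rcases h0 E with h0 | ⟨κ, c, L₀, hκ, hc, h0⟩
    · exact Or.inl h0
    · exact Or.inr ⟨κ, c, hκ, hc, Filter.eventually_atTop.2 ⟨L₀, h0⟩⟩
  intro Ω _ P _ ξ hm hlaw hind
  obtain ⟨g1, g2, g3, -⟩ := h4 Ω P ξ hm hlaw hind
  refine ⟨g1, g2, ?_⟩
  intro a b β k hab hβ
  obtain ⟨T₀, hT⟩ := g3 a b β k hab hβ
  refine ⟨max T₀ 1, fun T hTT => ?_⟩
  have hT0 : T ≠ 0 := (lt_of_lt_of_le one_pos ((le_max_right _ _).trans hTT)).ne'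
  simp only [spreading_eq _ hT0]
  exact hT T ((le_max_left _ _).trans hTT)

end Pool.Agent.Helper93LE.ZeroOneLaw
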